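import Pool.Agent.Q158.TypeB

/-!
# MP_739a3c_co: the smallest relative term of type B sequences

For a type B sequence, Cramer's rule expresses `det · d_t` as an integer multiple of the sum `S`
of the sequence, and the determinant (first row all ones, the other rows `1_I - 1_J` for
intervals `I`, `J`) is a sum of at most `2^(n-1)` determinants of interval matrices, each of
absolute value at most one.
-/

namespace Pool.Agent.Results.MP_739a3c_co.MinTermB

open Q158.TypeB

/-- For every `n ≥ 1`, the least value of `min_i d_i / ∑_j d_j` over all type B sequences of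
length `n` is exactly `1 / 2^(n-1)`. -/
theorem result (n : ℕ) (hn : 1 ≤ n) :
    IsLeast {x : ℝ | ∃ d : Fin n → ℝ, IsTypeB d ∧ ∃ i, (∀ j, d i ≤ d j) ∧ x = d i / ∑ j, d j}
      (1 / 2 ^ (n - 1)) :=
  result_aux n hn

end Pool.Agent.Results.MP_739a3c_co.MinTermB
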